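import Pool.Agent.Helper93.IA.StC

/-!
# Project IA, part C: ROT (rotation of a packing)
-/

set_option autoImplicit false

namespace Pool.Agent.Helper9.IAC

open Finset Pool.Agent.Helper93.IA

theorem hROT : StROT := by
  intro α β γ _ _ _ A B C P' h
  have key : ∀ T ∈ P'.image (fun T : β × γ × α => ((T.2.2, T.1, T.2.1) : α × β × γ)),
      ∃ T' ∈ P', T = (T'.2.2, T'.1, T'.2.1) := by
    intro T hT
    obtain ⟨T', h1, h2⟩ := mem_image.1 hT
    exact ⟨T', h1, h2.symm⟩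
  refine ⟨P'.image (fun T : β × γ × α => ((T.2.2, T.1, T.2.1) : α × β × γ)), ⟨?_, ?_, ?_, ?_, ?_, ?_⟩,
    ?_, ?_, ?_⟩
  · intro T hT
    obtain ⟨T', h1, rfl⟩ := key T hT
    exact h.sC T' h1
  · intro T hT
    obtain ⟨T', h1, rfl⟩ := key T hT
    exact h.sA T' h1
  · intro T hT
    obtain ⟨T', h1, rfl⟩ := key T hT
    exact h.sB T' h1
  · intro T hT U hU e
    obtain ⟨T', h1, rfl⟩ := key T hT
    obtain ⟨U', h2, rfl⟩ := key U hU
    have e2 : T' = U' := h.iC T' h1 U' h2 e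
    rw [e2]
  · intro T hT U hU e
    obtain ⟨T', h1, rfl⟩ := key T hT
    obtain ⟨U', h2, rfl⟩ := key U hU
    have e2 : T' = U' := h.iA T' h1 U' h2 e
    rw [e2]
  · intro T hT U hU e
    obtain ⟨T', h1, rfl⟩ := key T hT
    obtain ⟨U', h2, rfl⟩ := key U hU
    have e2 : T' = U' := h.iB T' h1 U' h2 e
    rw [e2]
  · rw [image_image]
    rfl
  · rw [image_image]
    rfl
  · rw [image_image]
    rfl

end Pool.Agent.Helper9.IAC
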